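import Pool.Agent.H86.KZ.S
import Pool.Agent.H45.EGH.All
import Pool.Agent.H85.EGC.TR1

/-!
# KZ, row GRO: the growth of a space of dimension `k`
-/

set_option autoImplicit false

namespace Pool.KZ

open MvPolynomial Pool.EGH
open Pool.EG3 (MC)
open Pool.EG4 (dl so)

/-- One more element: the growth goes up by at least `N - dim L`. -/
theorem gro_step {K : Type} [Field K] {N : ℕ} (Q : Ideal (PR K N)) (m : ℕ)
    (V V' : Submodule K (PR K N ⧸ Q)) (hV : V ≤ gp Q m) (hV' : V' ≤ V) (w : PR K N ⧸ Q)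
    (L : Submodule K (PR K N)) (hw : w ∈ V) (hL : L ≤ fm K N 1)
    (h : ∀ l ∈ fm K N 1, mu Q l w ∈ gp Q 1 * V' → l ∈ L) :
    dg Q V' + N ≤ dg Q V + Module.finrank K L := by
  obtain ⟨hfin, hmul, -, hmk⟩ := h_gpm K N Q
  have hgp : gp Q 1 * V ≤ gp Q (m + 1) := by
    rw [add_comm, ← hmul 1 m]
    exact mul_le_mul' le_rfl hV
  have : Module.Finite K ↥(gp Q (m + 1)) := hfin _
  have : Module.Finite K ↥(gp Q 1 * V) := Submodule.finiteDimensional_of_le hgp
  have : Module.Finite K ↥(fm K N 1) := h_fin K N 1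
  have : Module.Finite K ↥L := Submodule.finiteDimensional_of_le hL
  have hle : gp Q 1 * V' ≤ gp Q 1 * V := mul_le_mul' le_rfl hV'
  -- the map `l ↦ l w` from the linear forms to the quotient
  have hmem : ∀ l : ↥(fm K N 1), ((mu Q).flip w ∘ₗ (fm K N 1).subtype) l ∈ gp Q 1 * V :=
    fun l => Submodule.mul_mem_mul (hmk 1 l l.2) hw
  let W' : Submodule K ↥(gp Q 1 * V) := (gp Q 1 * V').comap (gp Q 1 * V).subtype
  let φ : ↥(fm K N 1) →ₗ[K] (↥(gp Q 1 * V) ⧸ W') :=
    W'.mkQ ∘ₗ LinearMap.codRestrict (gp Q 1 * V) ((mu Q).flip w ∘ₗ (fm K N 1).subtype) hmem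
  have hker : ∀ l : ↥(LinearMap.ker φ), ((l : ↥(fm K N 1)) : PR K N) ∈ L := by
    intro l
    have h1 : φ (l : ↥(fm K N 1)) = 0 := l.2
    have h2 : LinearMap.codRestrict (gp Q 1 * V) ((mu Q).flip w ∘ₗ (fm K N 1).subtype) hmem
        (l : ↥(fm K N 1)) ∈ W' := (Submodule.Quotient.mk_eq_zero W').1 h1
    exact h _ (l : ↥(fm K N 1)).2 h2
  have h1 : Module.finrank K ↥(LinearMap.ker φ) ≤ Module.finrank K ↥L := by
    refine LinearMap.finrank_le_finrank_of_injective
      (f := LinearMap.codRestrict L ((fm K N 1).subtype ∘ₗ (LinearMap.ker φ).subtype) hker) ?_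
    intro x y hxy
    have := congrArg Subtype.val hxy
    exact Subtype.ext (Subtype.ext this)
  have h2 : Module.finrank K ↥(LinearMap.range φ) ≤ Module.finrank K (↥(gp Q 1 * V) ⧸ W') :=
    Submodule.finrank_le _
  have h3 := LinearMap.finrank_range_add_finrank_ker φ
  have h4 := Submodule.finrank_quotient_add_finrank W'
  have h5 : Module.finrank K ↥W' = dg Q V' := (Submodule.comapSubtypeEquivOfLe hle).finrank_eq
  have h6 : Module.finrank K ↥(fm K N 1) = N := Pool.EGC.TR1x.fr1 N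
  have h7 : Module.finrank K ↥(gp Q 1 * V) = dg Q V := rfl
  omega

/-- GRO: the growth of a space of dimension `k`. -/
theorem t_gro (hHYP : HYPStmt) : GROStmt := by
  intro K _ _ N a ha ha0 r Q hQ m k
  induction k with
  | zero =>
    intro q V _ _ _
    simp
  | succ k ih =>
    intro q V hV hk hq
    obtain ⟨V', hV', hk', w, L, hw, hw', hL, hLd, hl⟩ :=
      hHYP K N a ha ha0 r Q hQ m k (q k) V hV hk (hq k (Nat.lt_succ_self k))
    have h1 := ih q V' (le_trans hV' hV) hk' fun i hi => hq i (Nat.lt_succ_of_lt hi)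
    have h2 := gro_step Q m V V' hV hV' w L hw hL hl
    rw [Finset.sum_range_succ, Nat.mul_succ]
    omega

end Pool.KZ
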